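import Pool.Agent.V117.VNum

/-! For a proper monomial ideal `I` with `v(I^k) = k + b` and `reg(I^k) = k + d` for all large `k`
one must have `b < 0`: no quadruple `(1, b, 1, d)` with `0 ≤ b ≤ d` is realized. -/

namespace Pool.Agent.Results.MP_d985a5_al.SlopeOne

open MvPolynomial Filter Pool.Agent.V117

variable {K : Type*} [Field K] {n : ℕ}

/-- The v-number of an ideal `J`: the least degree of a homogeneous `f` such that the colon ideal
`(J : f)` is an associated prime of `J`. -/
noncomputable def vNumber (J : Ideal (MvPolynomial (Fin n) K)) : ℕ :=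
  sInf {d : ℕ | ∃ f : MvPolynomial (Fin n) K, f.IsHomogeneous d ∧
    J.colon {f} ∈ Submodule.associatedPrimes J}

/-- `RegLE J r`: the ideal `J` has a graded free resolution whose `i`-th module is finitely
generated in degrees at most `r + i`, that is, `reg J ≤ r`. -/
def RegLE (J : Ideal (MvPolynomial (Fin n) K)) (r : ℕ) : Prop :=
  ∃ (b : ℕ → ℕ) (deg : ∀ i : ℕ, Fin (b i) → ℕ)
    (g : Fin (b 0) → MvPolynomial (Fin n) K)
    (d : ∀ i : ℕ, Matrix (Fin (b i)) (Fin (b (i + 1))) (MvPolynomial (Fin n) K)),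
    Ideal.span (Set.range g) = J ∧
    (∀ k : Fin (b 0), (g k).IsHomogeneous (deg 0 k)) ∧
    (∀ (i : ℕ) (s : Fin (b i)) (c : Fin (b (i + 1))),
      d i s c = 0 ∨
        (deg i s ≤ deg (i + 1) c ∧ (d i s c).IsHomogeneous (deg (i + 1) c - deg i s))) ∧
    (∀ v : Fin (b 0) → MvPolynomial (Fin n) K,
      (∑ k, g k * v k = 0) ↔ ∃ w, Matrix.mulVec (d 0) w = v) ∧
    (∀ (i : ℕ) (v : Fin (b (i + 1)) → MvPolynomial (Fin n) K),
      Matrix.mulVec (d i) v = 0 ↔ ∃ w, Matrix.mulVec (d (i + 1)) w = v) ∧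
    (∀ (i : ℕ) (k : Fin (b i)), deg i k ≤ r + i)

/-- The Castelnuovo-Mumford regularity of the ideal `J` is exactly `r`. -/
def HasReg (J : Ideal (MvPolynomial (Fin n) K)) (r : ℕ) : Prop :=
  RegLE J r ∧ ∀ s, RegLE J s → r ≤ s

/-- Monomial ideals. -/
def IsMonomialIdeal (J : Ideal (MvPolynomial (Fin n) K)) : Prop :=
  ∃ S : Set (Fin n →₀ ℕ), J = Ideal.span ((fun m => monomial m (1 : K)) '' S)

theorem isUpperSet_closure (S : Set (Fin n →₀ ℕ)) : IsUpperSet {m | ∃ s ∈ S, s ≤ m} := by
  rintro a b hab ⟨s, hs, hsa⟩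
  exact ⟨s, hs, hsa.trans hab⟩

theorem eq_upIdeal (S : Set (Fin n →₀ ℕ)) :
    Ideal.span ((fun m => monomial m (1 : K)) '' S) = upIdeal K {m | ∃ s ∈ S, s ≤ m} := by
  apply le_antisymm
  · exact Ideal.span_mono (Set.image_mono fun s hs => ⟨s, hs, le_rfl⟩)
  · unfold upIdeal
    rw [Ideal.span_le]
    rintro _ ⟨m, ⟨s, hs, hsm⟩, rfl⟩
    have : monomial m (1 : K) = monomial (m - s) 1 * monomial s 1 := by
      rw [monomial_mul, mul_one, tsub_add_cancel_of_le hsm]
    show monomial m (1 : K) ∈ _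
    rw [this]
    exact Ideal.mul_mem_left _ _ (Ideal.subset_span ⟨s, hs, rfl⟩)

/-- Exponents in the `k`-th power of the ideal of exponents `P`. -/
def powSet (P : Set (Fin n →₀ ℕ)) : ℕ → Set (Fin n →₀ ℕ)
  | 0 => Set.univ
  | k + 1 => {m | ∃ p ∈ powSet P k, ∃ q ∈ P, p + q ≤ m}

theorem isUpperSet_powSet (P : Set (Fin n →₀ ℕ)) (k : ℕ) : IsUpperSet (powSet P k) := by
  cases k with
  | zero => exact isUpperSet_univ
  | succ k => exact isUpperSet_sumset _ _

theorem upIdeal_univ : upIdeal K (Set.univ : Set (Fin n →₀ ℕ)) = ⊤ := by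
  rw [Ideal.eq_top_iff_one]
  exact Ideal.subset_span ⟨0, trivial, rfl⟩

theorem upIdeal_pow (P : Set (Fin n →₀ ℕ)) (k : ℕ) :
    upIdeal K P ^ k = upIdeal K (powSet P k) := by
  induction k with
  | zero => rw [pow_zero, Ideal.one_eq_top]; exact upIdeal_univ.symm
  | succ k ih => rw [pow_succ, ih, upIdeal_mul_eq]; rfl

/-- If a monomial in the `k`-th power avoids the variables in `A`, and all monomials of the ideal
avoiding the variables in `A` have degree at least two, then it has degree at least `2 k`. -/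
theorem two_mul_le {P : Set (Fin n →₀ ℕ)} {A : Set (Fin n)}
    (h2 : ∀ m ∈ P, (∀ i ∈ A, m i = 0) → 2 ≤ m.degree) (k : ℕ) :
    ∀ m ∈ powSet P k, (∀ i ∈ A, m i = 0) → 2 * k ≤ m.degree := by
  induction k with
  | zero => intro m _ _; omega
  | succ k ih =>
    rintro m ⟨p, hp, q, hq, hle⟩ hA
    have hp0 : ∀ i ∈ A, p i = 0 := by
      intro i hi
      have := hle i
      rw [hA i hi, Finsupp.add_apply] at this
      omega
    have hq0 : ∀ i ∈ A, q i = 0 := by
      intro i hi
      have := hle i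
      rw [hA i hi, Finsupp.add_apply] at this
      omega
    have h3 := ih p hp hp0
    have h4 := h2 q hq hq0
    obtain ⟨c, rfl⟩ := le_iff_exists_add.1 hle
    rw [map_add, map_add]
    omega

theorem nsmul_mem_powSet {P : Set (Fin n →₀ ℕ)} {m : Fin n →₀ ℕ} (hm : m ∈ P) (k : ℕ) :
    k • m ∈ powSet P k := by
  induction k with
  | zero => trivial
  | succ k ih => exact ⟨k • m, ih, m, hm, by rw [succ_nsmul]⟩

/-- Exponents involving a variable in `A`. -/
def varSet (A : Set (Fin n)) : Set (Fin n →₀ ℕ) := {m | ∃ i ∈ A, 0 < m i}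

theorem isUpperSet_varSet (A : Set (Fin n)) : IsUpperSet (varSet A) := by
  rintro a b hab ⟨i, hi, h⟩
  exact ⟨i, hi, h.trans_le (hab i)⟩

/-- A proper monomial ideal some power `I^k` of which is generated in degrees less than `2 k` is
generated by variables. -/
theorem eq_varSet {P : Set (Fin n →₀ ℕ)} (hP : IsUpperSet P) (h0 : (0 : Fin n →₀ ℕ) ∉ P)
    {k : ℕ} {ι : Type} (g : ι → MvPolynomial (Fin n) K) (e : ι → ℕ)
    (hg : Ideal.span (Set.range g) = upIdeal K (powSet P k))
    (hh : ∀ j, (g j).IsHomogeneous (e j)) (he : ∀ j, e j < 2 * k) :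
    P = varSet {i | Finsupp.single i 1 ∈ P} := by
  classical
  set A : Set (Fin n) := {i | Finsupp.single i 1 ∈ P} with hA
  have hk : 0 < k := by
    by_contra hk
    have hk0 : k = 0 := by omega
    subst hk0
    by_cases hι : IsEmpty ι
    · rw [Set.range_eq_empty, Ideal.span_empty] at hg
      have h1 : (1 : MvPolynomial (Fin n) K) ∈ (⊥ : Ideal (MvPolynomial (Fin n) K)) := by
        rw [hg]
        change (1 : MvPolynomial (Fin n) K) ∈ upIdeal K Set.univ
        rw [upIdeal_univ]
        trivial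
      exact one_ne_zero (Ideal.mem_bot.1 h1)
    · rw [not_isEmpty_iff] at hι
      obtain ⟨j⟩ := hι
      have := he j
      omega
  have h2 : ∀ m ∈ P, (∀ i ∈ A, m i = 0) → 2 ≤ m.degree := by
    intro m hm hA0
    by_contra hlt
    push Not at hlt
    have hm0 : m ≠ 0 := fun h => h0 (h ▸ hm)
    obtain ⟨i, hi⟩ : ∃ i, m i ≠ 0 := by
      by_contra hcon
      push Not at hcon
      exact hm0 (Finsupp.ext hcon)
    have hle : Finsupp.single i 1 ≤ m := by
      rw [Finsupp.single_le_iff]
      exact Nat.one_le_iff_ne_zero.2 hi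
    obtain ⟨c, hc⟩ := le_iff_exists_add.1 hle
    have hc0 : c = 0 := by
      rw [hc, map_add, Finsupp.degree_single] at hlt
      have : c.degree = 0 := by omega
      exact (Finsupp.degree_eq_zero_iff c).1 this
    rw [hc0, add_zero] at hc
    have hiA : i ∈ A := by
      rw [hA, Set.mem_ofPred_eq, ← hc]
      exact hm
    exact hi (hA0 i hiA)
  have hgA : ∀ j, g j ∈ upIdeal K (varSet A) := by
    intro j
    rw [mem_upIdeal (isUpperSet_varSet A)]
    intro m hm
    have hmk : m ∈ powSet P k := by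
      have : g j ∈ upIdeal K (powSet P k) := by
        rw [← hg]
        exact Ideal.subset_span ⟨j, rfl⟩
      exact (mem_upIdeal (isUpperSet_powSet P k)).1 this m hm
    have hdeg : m.degree = e j := by
      by_contra hne
      exact (mem_support_iff.mp hm) ((hh j).coeff_eq_zero hne)
    by_contra hcon
    have hz : ∀ i ∈ A, m i = 0 := by
      intro i hi
      by_contra hne
      exact hcon ⟨i, hi, Nat.pos_of_ne_zero hne⟩
    have := two_mul_le h2 k m hmk hz
    have := he j
    omega
  have hsub : upIdeal K (powSet P k) ≤ upIdeal K (varSet A) := by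
    rw [← hg, Ideal.span_le]
    rintro _ ⟨j, rfl⟩
    exact hgA j
  ext m
  constructor
  · intro hm
    have h1 : monomial (k • m) (1 : K) ∈ upIdeal K (varSet A) := by
      apply hsub
      exact (monomial_mem_upIdeal (isUpperSet_powSet P k) one_ne_zero).2 (nsmul_mem_powSet hm k)
    rw [monomial_mem_upIdeal (isUpperSet_varSet A) one_ne_zero] at h1
    obtain ⟨i, hi, h⟩ := h1
    refine ⟨i, hi, ?_⟩
    rw [Finsupp.smul_apply, smul_eq_mul] at h
    exact Nat.pos_of_mul_pos_left h |> fun h => h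
  · rintro ⟨i, hi, h⟩
    refine hP ?_ hi
    rw [Finsupp.single_le_iff]
    exact h

/-- The total exponent of the variables in `A`, for monomials of the `k`-th power. -/
theorem powSet_varSet_sum (A : Set (Fin n)) (k : ℕ) :
    ∀ m ∈ powSet (varSet A) k, k ≤ ∑ i, (open Classical in if i ∈ A then m i else 0) := by
  classical
  induction k with
  | zero => intro m _; omega
  | succ k ih =>
    rintro m ⟨p, hp, q, ⟨i, hi, hq⟩, hle⟩
    have h1 := ih p hp
    have h2 : (if i ∈ A then q i else 0) ≤ ∑ i, (if i ∈ A then q i else 0) :=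
      Finset.single_le_sum (f := fun i => if i ∈ A then q i else 0)
        (fun _ _ => Nat.zero_le _) (Finset.mem_univ i)
    rw [if_pos hi] at h2
    have h3 : ∑ i, ((if i ∈ A then p i else 0) + (if i ∈ A then q i else 0))
        ≤ ∑ i, (if i ∈ A then m i else 0) := by
      refine Finset.sum_le_sum fun i _ => ?_
      have := hle i
      rw [Finsupp.add_apply] at this
      split_ifs
      · exact this
      · omega
    rw [Finset.sum_add_distrib] at h3
    convert le_trans (add_le_add h1 (le_trans hq h2)) h3 using 2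

theorem vNumber_varSet {A : Set (Fin n)} (hA : A.Nonempty) {k : ℕ} (hk : 1 ≤ k) :
    vNumber (upIdeal K (varSet A) ^ k) = k - 1 := by
  classical
  obtain ⟨i, hi⟩ := hA
  have hU := isUpperSet_powSet (varSet A) k
  have hsum : ∀ m : Fin n →₀ ℕ, ∑ j, (if j ∈ A then m j else 0) ≤ m.degree := by
    intro m
    rw [Finsupp.degree_eq_sum]
    refine Finset.sum_le_sum fun j _ => ?_
    split_ifs <;> omega
  have hprime : (upIdeal K (varSet A)).IsPrime := by
    apply upIdeal_isPrime (isUpperSet_varSet A)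
    · rintro ⟨j, _, h⟩
      simp at h
    · rintro a ha b hb ⟨j, hj, h⟩
      rw [Finsupp.add_apply] at h
      rcases Nat.eq_zero_or_pos (a j) with h0 | h0
      · rw [h0, zero_add] at h
        exact hb ⟨j, hj, h⟩
      · exact ha ⟨j, hj, h0⟩
  have hcolon : (upIdeal K (varSet A) ^ k).colon {(X i : MvPolynomial (Fin n) K) ^ (k - 1)}
      = upIdeal K (varSet A) := by
    ext g
    rw [Submodule.mem_colon_singleton, smul_eq_mul]
    constructor
    · intro h
      rw [upIdeal_pow, mem_upIdeal hU] at h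
      rw [mem_upIdeal (isUpperSet_varSet A)]
      intro m hm
      have h1 : m + Finsupp.single i (k - 1) ∈ powSet (varSet A) k := by
        apply h
        rw [X_pow_eq_monomial, mem_support_iff, coeff_mul_monomial, mul_one]
        exact mem_support_iff.1 hm
      by_contra hcon
      have h2 := powSet_varSet_sum A k _ h1
      have h3 : ∑ j, (if j ∈ A then (m + Finsupp.single i (k - 1)) j else 0) = k - 1 := by
        rw [Finset.sum_eq_single i]
        · rw [if_pos hi, Finsupp.add_apply, Finsupp.single_eq_same]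
          have : m i = 0 := by
            by_contra h0
            exact hcon ⟨i, hi, Nat.pos_of_ne_zero h0⟩
          omega
        · intro j _ hj
          split_ifs with hjA
          · rw [Finsupp.add_apply, Finsupp.single_eq_of_ne hj, add_zero]
            by_contra h0
            exact hcon ⟨j, hjA, Nat.pos_of_ne_zero h0⟩
          · rfl
        · intro h
          exact absurd (Finset.mem_univ i) h
      have h4 : k ≤ k - 1 := by
        calc k ≤ _ := h2
          _ = k - 1 := by convert h3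
      omega
    · intro h
      have h1 : (X i : MvPolynomial (Fin n) K) ∈ upIdeal K (varSet A) := by
        apply Ideal.subset_span
        exact ⟨Finsupp.single i 1, ⟨i, hi, by simp⟩, rfl⟩
      have h2 := Ideal.mul_mem_mul h (Ideal.pow_mem_pow h1 (k - 1))
      rwa [← pow_succ', Nat.sub_add_cancel hk] at h2
  have hmem : k - 1 ∈ {d : ℕ | ∃ f : MvPolynomial (Fin n) K, f.IsHomogeneous d ∧
      (upIdeal K (varSet A) ^ k).colon {f} ∈
        Submodule.associatedPrimes (upIdeal K (varSet A) ^ k)} := by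
    refine ⟨X i ^ (k - 1), ?_, ?_⟩
    · have := (isHomogeneous_X K i).pow (k - 1)
      rwa [one_mul] at this
    · rw [colon_mem_ass, hcolon]
      exact hprime
  apply le_antisymm (Nat.sInf_le hmem)
  apply le_csInf ⟨_, hmem⟩
  rintro d ⟨f, hf, hass⟩
  rw [colon_mem_ass] at hass
  have h1 : (X i : MvPolynomial (Fin n) K) ∈ (upIdeal K (varSet A) ^ k).colon {f} := by
    apply hass.mem_of_pow_mem k
    rw [Submodule.mem_colon_singleton, smul_eq_mul]
    apply Ideal.mul_mem_right
    apply Ideal.pow_mem_pow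
    apply Ideal.subset_span
    exact ⟨Finsupp.single i 1, ⟨i, hi, by simp⟩, rfl⟩
  rw [Submodule.mem_colon_singleton, smul_eq_mul] at h1
  have hf0 : f ≠ 0 := by
    rintro rfl
    apply hass.ne_top
    rw [Ideal.eq_top_iff_one, Submodule.mem_colon_singleton, smul_zero]
    exact Ideal.zero_mem _
  obtain ⟨m, hm⟩ := Finset.nonempty_iff_ne_empty.mpr
    (fun hs => hf0 (MvPolynomial.support_eq_empty.mp hs))
  rw [upIdeal_pow, mem_upIdeal hU] at h1
  have h2 : Finsupp.single i 1 + m ∈ powSet (varSet A) k := by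
    apply h1
    rw [mem_support_iff, coeff_X_mul]
    exact mem_support_iff.mp hm
  have h3 := powSet_varSet_sum A k _ h2
  have h4 : ∑ j, (if j ∈ A then (Finsupp.single i 1 + m : Fin n →₀ ℕ) j else 0)
      ≤ (Finsupp.single i 1 + m : Fin n →₀ ℕ).degree := hsum _
  rw [map_add, Finsupp.degree_single] at h4
  have h5 : m.degree = d := by
    by_contra hne
    exact (mem_support_iff.mp hm) (hf.coeff_eq_zero hne)
  have h6 : k ≤ 1 + m.degree := by
    calc k ≤ _ := h3
      _ ≤ 1 + m.degree := by convert h4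
  omega

theorem main {n : ℕ} {I : Ideal (MvPolynomial (Fin n) K)} (hmon : IsMonomialIdeal I)
    (hbot : I ≠ ⊥) (htop : I ≠ ⊤) {a b d : ℤ}
    (h : ∀ᶠ k : ℕ in atTop, (vNumber (I ^ k) : ℤ) = a * k + b ∧
      ∃ r : ℕ, HasReg (I ^ k) r ∧ (r : ℤ) = 1 * k + d) : a = 1 ∧ b = -1 := by
  classical
  obtain ⟨S, hS⟩ := hmon
  rw [eq_upIdeal] at hS
  set P : Set (Fin n →₀ ℕ) := {m | ∃ s ∈ S, s ≤ m} with hPdef
  have hP : IsUpperSet P := isUpperSet_closure S
  have h0 : (0 : Fin n →₀ ℕ) ∉ P := by
    intro h0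
    apply htop
    rw [hS, Ideal.eq_top_iff_one]
    exact Ideal.subset_span ⟨0, h0, rfl⟩
  obtain ⟨N, hN⟩ := Filter.eventually_atTop.1 h
  -- a large exponent
  set k : ℕ := max N (d.natAbs + 1) with hk
  obtain ⟨_, r, ⟨⟨bb, deg, g, dd, hg, hh, _, _, _, hdeg⟩, _⟩, hr⟩ := hN k (le_max_left _ _)
  have hkd : d.natAbs + 1 ≤ k := le_max_right _ _
  have hP2 : P = varSet {i | Finsupp.single i 1 ∈ P} := by
    refine eq_varSet hP h0 (k := k) g (deg 0) ?_ hh ?_
    · rw [hg, hS, upIdeal_pow]
    · intro j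
      have h1 := hdeg 0 j
      omega
  set A : Set (Fin n) := {i | Finsupp.single i 1 ∈ P} with hA
  have hAne : A.Nonempty := by
    by_contra hemp
    rw [Set.not_nonempty_iff_eq_empty] at hemp
    apply hbot
    rw [hS, hP2, hemp]
    have : varSet (∅ : Set (Fin n)) = ∅ := by
      ext m
      simp [varSet]
    rw [this]
    unfold upIdeal
    rw [Set.image_empty, Ideal.span_empty]
  have hv : ∀ k, 1 ≤ k → vNumber (I ^ k) = k - 1 := by
    intro k hk
    rw [hS, hP2]
    exact vNumber_varSet hAne hk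
  obtain ⟨M, hM1, hMN⟩ : ∃ M, 1 ≤ M ∧ N ≤ M := ⟨max N 1, le_max_right _ _, le_max_left _ _⟩
  have e1 := (hN M hMN).1
  have e2 := (hN (M + 1) (hMN.trans (Nat.le_succ _))).1
  rw [hv _ hM1] at e1
  rw [hv _ (by omega), Nat.add_sub_cancel] at e2
  have e3 : ((M - 1 : ℕ) : ℤ) = (M : ℤ) - 1 := by omega
  rw [e3] at e1
  push_cast at e2
  constructor
  · linarith
  · have ha : a = 1 := by linarith
    rw [ha] at e1
    linarith

/-- **Main theorem.** Let `K` be a field. (1) If `I` is a nonzero proper monomial ideal of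
`K[x_1, ..., x_n]` with `v(I^k) = a k + b` and `reg(I^k) = k + d` for all large `k`, then `a = 1`
and `b = -1`. (2) Consequently the answer to the realization question is negative: not every
admissible quadruple `(a, b, c, d)` is realized by a monomial ideal. -/
theorem result (K : Type*) [Field K] :
    (∀ (n : ℕ) (I : Ideal (MvPolynomial (Fin n) K)), IsMonomialIdeal I → I ≠ ⊥ → I ≠ ⊤ →
      ∀ a b d : ℤ, (∀ᶠ k : ℕ in atTop, (vNumber (I ^ k) : ℤ) = a * k + b ∧
        ∃ r : ℕ, HasReg (I ^ k) r ∧ (r : ℤ) = 1 * k + d) → a = 1 ∧ b = -1) ∧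
    ¬ ∀ a b c d : ℤ, 1 ≤ a → -1 ≤ b → 1 ≤ c → 0 ≤ d →
      (∀ᶠ k : ℕ in atTop, a * k + b ≤ c * k + d) →
      ∃ (n : ℕ) (I : Ideal (MvPolynomial (Fin n) K)), IsMonomialIdeal I ∧ I ≠ ⊥ ∧ I ≠ ⊤ ∧
        ∀ᶠ k : ℕ in atTop, (vNumber (I ^ k) : ℤ) = a * k + b ∧
          ∃ r : ℕ, HasReg (I ^ k) r ∧ (r : ℤ) = c * k + d := by
  refine ⟨fun n I hmon hbot htop a b d h => main hmon hbot htop h, fun hall => ?_⟩
  obtain ⟨n, I, hmon, hbot, htop, h⟩ := hall 1 0 1 0 le_rfl (by norm_num) le_rfl le_rfl
    (Filter.Eventually.of_forall fun k => le_rfl)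
  have := (main hmon hbot htop h).2
  norm_num at this

end Pool.Agent.Results.MP_d985a5_al.SlopeOne
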